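import Pool.Agent.Lib.MP_2fa8c7_an.Final

/-!
# The two-phase outer Serrin problem in the plane: uniqueness fails for arbitrarily large areas
-/

set_option autoImplicit false

namespace Pool.Agent.Results.MP_2fa8c7_an.OuterNotUnique

open MeasureTheory Metric Serrin

/-- Let `D` be the open unit disc of the plane and `σc > 1` arbitrary.  For every `V` there are
`V₀ > V`, a radius `R > 1` and a set `Ω` different from the disc `ball 0 R`, such that both
`ball 0 R` and `Ω` have area `V₀` and both are solutions of the outer problem for `D`. -/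
theorem result (σc : ℝ) (hσ : 1 < σc) (V : ℝ) :
    ∃ V₀ > V, ∃ R > (1 : ℝ), ∃ Ω : Set ℂ, Ω ≠ ball 0 R ∧
      volume (ball (0 : ℂ) R) = ENNReal.ofReal V₀ ∧ volume Ω = ENNReal.ofReal V₀ ∧
      IsSolution σc (ball 0 1) (ball 0 R) ∧ IsSolution σc (ball 0 1) Ω := by
  obtain ⟨V₀, hV, R, hR, Ω, h⟩ := main hσ V
  exact ⟨V₀, hV, R, hR, Ω, h⟩

end Pool.Agent.Results.MP_2fa8c7_an.OuterNotUnique
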